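import Pool.Agent.Helper22_DEN2.Stmt

/-!
# GENS: generators of the group with entries in a subring
-/

namespace Pool.Agent.DEN.H482

open Pool.Agent.DEN

section
variable {r : ℕ} {C : Matrix (Fin r) (Fin r) ℤ} {K : Type} [Field K]

theorem xg_mem_GS (hC : SimplyLaced C) (S : Subring (FF K)) (β : Rt C) {a : FF K} (ha : a ∈ S) :
    xg hC β a ∈ GS C S :=
  Subgroup.subset_closure ⟨β, a, ha, fun _ => rfl⟩

theorem wg_mem_GS (hC : SimplyLaced C) (S : Subring (FF K)) (β : Rt C) :
    wg hC β (1 : FF K) ∈ GS C S := by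
  unfold wg
  rw [inv_one]
  exact mul_mem (mul_mem (xg_mem_GS hC S β (one_mem S)) (xg_mem_GS hC S β.neg (one_mem S)))
    (xg_mem_GS hC S β (one_mem S))

end

theorem gens : GenSStmt := by
  intro r C hC K _ S
  have hD : RootDescStmt := H22.hRD
  have hS : RootSignStmt := H22.hRS
  have hRC : RelCStmt := H22.relC
  set H := Subgroup.closure ({g : grp C K | ∃ (i : Fin r) (a : FF K), a ∈ S ∧
        g = xg hC (hC.sr i) a} ∪ {g : grp C K | ∃ i : Fin r, g = wg hC (hC.sr i) (1 : FF K)})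
    with hH
  have hx : ∀ i, ∀ a ∈ S, xg hC (hC.sr i) a ∈ H := fun i a ha =>
    Subgroup.subset_closure (Or.inl ⟨i, a, ha, rfl⟩)
  have hw : ∀ i, wg hC (hC.sr i) (1 : FF K) ∈ H := fun i =>
    Subgroup.subset_closure (Or.inr ⟨i, rfl⟩)
  have key : ∀ n : ℕ, ∀ β : Rt C, β.Pos → ∑ j, β.1 j = (n : ℤ) → ∀ a ∈ S,
      xg hC β a ∈ H ∧ xg hC β.neg a ∈ H := by
    intro n
    induction n using Nat.strong_induction_on with
    | _ n ih =>
      intro β hβ hn a ha
      rcases (hD r C hC).1 β hβ with ⟨i, rfl⟩ | ⟨i, h1, h2⟩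
      · refine ⟨hx i a ha, ?_⟩
        have := (hRC r C hC K (hC.sr i) 1 one_ne_zero a).1
        rw [one_pow, inv_one, one_mul] at this
        rw [← this]
        exact mul_mem (mul_mem (hw i) (hx i a ha)) (inv_mem (hw i))
      · have h1' : ip C (al i) β.1 = 1 := by rw [hC.ip_comm]; exact h1
        have hr : ip C (β.1 - al i) (β.1 - al i) = 2 :=
          hC.ip_sub_self (β := β) (γ := hC.sr i) h1
        set γ : Rt C := ⟨_, hr⟩ with hγ
        have hγ1 : γ.1 = β.1 - al i := rfl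
        have hs : ∑ j, γ.1 j = (n : ℤ) - 1 := by
          rw [hγ1, ← hn]
          simp [al, Finset.sum_sub_distrib]
        have hγp : γ.Pos := h2
        have hs0 : 0 ≤ ∑ j, γ.1 j := Finset.sum_nonneg fun j _ => hγp j
        have hn1 : 1 ≤ n := by omega
        have ih' := ih (n - 1) (by omega) γ hγp (by rw [hs]; omega)
          (((eps C (al i) γ.1 : ℤ) : FF K) * a) (mul_mem (intCast_mem S _) ha)
        have hip : ip C (al i) γ.1 = -1 := by
          rw [hγ1, ip_sub_right, h1', ip_al_al, hC.diag]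
          norm_num
        have he : ((eps C (al i) γ.1 : ℤ) : FF K) * (((eps C (al i) γ.1 : ℤ) : FF K) * a) = a := by
          rw [← mul_assoc, ← Int.cast_mul, eps_mul_self, Int.cast_one, one_mul]
        have e1 := (hRC r C hC K (hC.sr i) 1 one_ne_zero
          (((eps C (al i) γ.1 : ℤ) : FF K) * a)).2.2.2.1 γ β hip
          (by rw [hγ1, hC.sr_val, sub_add_cancel])
        rw [hC.sr_val, one_mul, he] at e1
        have e2 := (hRC r C hC K (hC.sr i) 1 one_ne_zero
          (((eps C (al i) γ.1 : ℤ) : FF K) * a)).2.2.1 γ.neg β.neg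
          (by rw [Rt.neg_val, ip_neg_right, hC.sr_val, hip]; norm_num)
          (by rw [Rt.neg_val, Rt.neg_val, hγ1, hC.sr_val]; abel)
        rw [hC.sr_val, Rt.neg_val, eps_neg_right, inv_one, one_mul, he] at e2
        exact ⟨by rw [← e1]; exact mul_mem (mul_mem (hw i) ih'.1) (inv_mem (hw i)),
          by rw [← e2]; exact mul_mem (mul_mem (hw i) ih'.2) (inv_mem (hw i))⟩
  apply le_antisymm
  · unfold GS
    rw [Subgroup.closure_le]
    rintro g ⟨β, a, ha, hg⟩
    rw [eq_xg hC β a g hg]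
    rcases (hS r C hC).1 β with h | h
    · have h0 : 0 ≤ ∑ j, β.1 j := Finset.sum_nonneg fun j _ => h j
      exact (key (∑ j, β.1 j).toNat β h (by rw [Int.toNat_of_nonneg h0]) a ha).1
    · have h0 : 0 ≤ ∑ j, β.neg.1 j := Finset.sum_nonneg fun j _ => h j
      have := (key (∑ j, β.neg.1 j).toNat β.neg h (by rw [Int.toNat_of_nonneg h0]) a ha).2
      rw [Rt.neg_neg] at this
      exact this
  · rw [hH, Subgroup.closure_le]
    rintro g (⟨i, a, ha, rfl⟩ | ⟨i, rfl⟩)
    · exact xg_mem_GS hC S _ ha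
    · exact wg_mem_GS hC S _

end Pool.Agent.DEN.H482
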